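import Mathlib
import Pool.Agent.Q299.EDR

set_option autoImplicit false

namespace Pool.Agent.Results.MP_5814e0_lc.NoFiniteWitness

open FirstOrder Pool.Agent.Q299.EDR

/-- `M →_ext (B)^A_2`. -/
def ArrowM (L : FirstOrder.Language.{0, 0}) (M A B : Type) [L.Structure M] [L.Structure A]
    [L.Structure B] : Prop :=
  ∀ χ : (A ↪[L] M) → Fin 2, ExtDef L χ →
    ∃ g : B ↪[L] M, ∀ f f' : A ↪[L] B, χ (g.comp f) = χ (g.comp f')

/-- `C →_ext (B)^A_2`, relative to the ambient structure `M`. -/
def ArrowC (L : FirstOrder.Language.{0, 0}) (M A B C : Type) [L.Structure M] [L.Structure A]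
    [L.Structure B] [L.Structure C] : Prop :=
  ∀ (h : C ↪[L] M) (χ : (A ↪[L] M) → Fin 2), ExtDef L χ →
    ∃ g : B ↪[L] C, ∀ f f' : A ↪[L] B, χ ((h.comp g).comp f) = χ ((h.comp g).comp f')

/-- the partner -/
def star (x : ℕ × Bool) : ℕ × Bool := (x.1, !x.2)

theorem star_star (x : ℕ × Bool) : star (star x) = x := by
  simp [star]

theorem star_ne (x : ℕ × Bool) : star x ≠ x := by
  intro h
  have := congrArg Prod.snd h
  simp [star] at this

theorem star_inj {x y : ℕ × Bool} (h : star x = star y) : x = y := by
  rw [← star_star x, h, star_star]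

/-- the perfect matching on `ℕ × Bool` -/
def GM : SimpleGraph (ℕ × Bool) where
  Adj x y := y = star x
  symm := ⟨by
    intro x y h
    rw [h, star_star]⟩
  loopless := ⟨by
    intro x h
    exact star_ne x h.symm⟩

/-- the edge -/
def GB : SimpleGraph Bool where
  Adj x y := y = !x
  symm := ⟨by
    intro x y h
    rw [h, Bool.not_not]⟩
  loopless := ⟨by
    intro x h
    revert h
    cases x <;> simp⟩

/-- the vertex -/
def GA : SimpleGraph Unit := ⊥

abbrev LG : FirstOrder.Language.{0, 0} := FirstOrder.Language.graph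

instance : LG.Structure (ℕ × Bool) := GM.structure
instance : LG.Structure Bool := GB.structure
instance : LG.Structure Unit := GA.structure

/-- an automorphism from a permutation preserving adjacency -/
def mkAut {N : Type} [LG.Structure N] (σ : Equiv.Perm N)
    (h : ∀ x y : N, FirstOrder.Language.Structure.RelMap FirstOrder.Language.adj ![σ x, σ y] ↔
      FirstOrder.Language.Structure.RelMap FirstOrder.Language.adj ![x, y]) : N ≃[LG] N where
  toEquiv := σ
  map_fun' := fun {n} f => (f : Empty).elim
  map_rel' := by
    rintro n ⟨⟩ x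
    have h1 : (σ ∘ x : Fin 2 → N) = ![σ (x 0), σ (x 1)] := by
      funext i
      fin_cases i <;> rfl
    have h2 : x = ![x 0, x 1] := by
      funext i
      fin_cases i <;> rfl
    change FirstOrder.Language.Structure.RelMap FirstOrder.Language.adj (σ ∘ x) ↔
      FirstOrder.Language.Structure.RelMap FirstOrder.Language.adj x
    rw [h1, h (x 0) (x 1), ← h2]

theorem relM (x y : ℕ × Bool) :
    FirstOrder.Language.Structure.RelMap FirstOrder.Language.adj ![x, y] ↔ y = star x := Iff.rfl

/-- one-point homogeneity -/
theorem one_point (F : Finset (ℕ × Bool)) (c d : ℕ × Bool) (hc : c ∉ F) (hd : d ∉ F)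
    (h : ∀ x ∈ F, (x = star c ↔ x = star d)) :
    ∃ g : (ℕ × Bool) ≃[LG] (ℕ × Bool), (∀ x ∈ F, g x = x) ∧ g c = d := by
  by_cases hcd : c = d
  · exact ⟨FirstOrder.Language.Equiv.refl LG _, fun x _ => rfl, hcd⟩
  have hc' : star c ∉ F := by
    intro h1
    exact hcd (star_inj ((h _ h1).1 rfl))
  have hd' : star d ∉ F := by
    intro h1
    exact hcd (star_inj ((h _ h1).2 rfl)).symm
  by_cases hcd' : d = star c
  · subst hcd'
    refine ⟨mkAut (Equiv.swap c (star c)) ?_, ?_, ?_⟩
    · intro x y
      rw [relM, relM]
      have key : ∀ x, Equiv.swap c (star c) (star x) = star (Equiv.swap c (star c) x) := by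
        intro x
        by_cases h1 : x = c
        · subst h1
          rw [Equiv.swap_apply_right, Equiv.swap_apply_left, star_star]
        by_cases h2 : x = star c
        · subst h2
          rw [star_star, Equiv.swap_apply_right, Equiv.swap_apply_left]
        rw [Equiv.swap_apply_of_ne_of_ne h1 h2, Equiv.swap_apply_of_ne_of_ne]
        · intro h3
          exact h2 (by rw [← h3, star_star])
        · intro h3
          exact h1 (star_inj h3)
      rw [← key]
      exact (Equiv.swap c (star c)).apply_eq_iff_eq
    · intro x hx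
      exact Equiv.swap_apply_of_ne_of_ne (fun h1 => hc (h1 ▸ hx)) (fun h1 => hc' (h1 ▸ hx))
    · exact Equiv.swap_apply_left _ _
  · have hcd2 : c ≠ star d := by
      intro h1
      exact hcd' (by rw [h1, star_star])
    have hs : star c ≠ star d := fun h1 => hcd (star_inj h1)
    have key : ∀ x, (Equiv.swap c d * Equiv.swap (star c) (star d)) (star x) =
        star ((Equiv.swap c d * Equiv.swap (star c) (star d)) x) := by
      intro x
      rw [Equiv.Perm.mul_apply, Equiv.Perm.mul_apply]
      by_cases h1 : x = c
      · subst h1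
        rw [Equiv.swap_apply_left, Equiv.swap_apply_of_ne_of_ne (a := x) (b := d) hcd2.symm.symm.symm
          (star_ne d), Equiv.swap_apply_of_ne_of_ne (star_ne x).symm hcd2, Equiv.swap_apply_left]
      by_cases h2 : x = d
      · subst h2
        rw [Equiv.swap_apply_right, Equiv.swap_apply_of_ne_of_ne (a := c) (b := x) (star_ne c)
          (Ne.symm hcd'), Equiv.swap_apply_of_ne_of_ne hcd' (star_ne x).symm, Equiv.swap_apply_right]
      by_cases h3 : x = star c
      · subst h3
        rw [star_star, Equiv.swap_apply_left,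
          Equiv.swap_apply_of_ne_of_ne (a := star c) (b := star d) (star_ne c).symm hcd2,
          Equiv.swap_apply_left, Equiv.swap_apply_of_ne_of_ne hcd2.symm (star_ne d), star_star]
      by_cases h4 : x = star d
      · subst h4
        rw [star_star, Equiv.swap_apply_right,
          Equiv.swap_apply_of_ne_of_ne (a := star c) (b := star d) hcd' (star_ne d).symm,
          Equiv.swap_apply_right, Equiv.swap_apply_of_ne_of_ne (star_ne c) (Ne.symm hcd'), star_star]
      have h5 : star x ≠ c := fun h => h3 (by rw [← h, star_star])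
      have h6 : star x ≠ d := fun h => h4 (by rw [← h, star_star])
      have h7 : star x ≠ star c := fun h => h1 (star_inj h)
      have h8 : star x ≠ star d := fun h => h2 (star_inj h)
      rw [Equiv.swap_apply_of_ne_of_ne h7 h8, Equiv.swap_apply_of_ne_of_ne h5 h6,
        Equiv.swap_apply_of_ne_of_ne h3 h4, Equiv.swap_apply_of_ne_of_ne h1 h2]
    refine ⟨mkAut (Equiv.swap c d * Equiv.swap (star c) (star d)) ?_, ?_, ?_⟩
    · intro x y
      rw [relM, relM, ← key]
      exact (Equiv.swap c d * Equiv.swap (star c) (star d)).apply_eq_iff_eq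
    · intro x hx
      change (Equiv.swap c d) (Equiv.swap (star c) (star d) x) = x
      rw [Equiv.swap_apply_of_ne_of_ne (fun h1 : x = star c => hc' (h1 ▸ hx))
        (fun h1 : x = star d => hd' (h1 ▸ hx)),
        Equiv.swap_apply_of_ne_of_ne (fun h1 : x = c => hc (h1 ▸ hx))
        (fun h1 : x = d => hd (h1 ▸ hx))]
    · change (Equiv.swap c d) (Equiv.swap (star c) (star d) c) = d
      rw [Equiv.swap_apply_of_ne_of_ne (star_ne c).symm hcd2, Equiv.swap_apply_left]

theorem ultra : LG.IsUltrahomogeneous (ℕ × Bool) := by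
  classical
  intro S hS f
  have hfin : Finite S := hS.finite
  have key : ∀ T : Finset S, ∃ g : (ℕ × Bool) ≃[LG] (ℕ × Bool), ∀ x ∈ T, g x = f x := by
    intro T
    induction T using Finset.induction_on with
    | empty => exact ⟨FirstOrder.Language.Equiv.refl LG _, fun x hx => by simp at hx⟩
    | @insert a T ha ih =>
      obtain ⟨g, hg⟩ := ih
      have hadj : ∀ x y : S, (f y = star (f x) ↔ (y : ℕ × Bool) = star x) := by
        intro x y
        have h1 := f.map_rel FirstOrder.Language.adj ![x, y]
        have h2 : (f ∘ ![x, y] : Fin 2 → ℕ × Bool) = ![f x, f y] := by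
          funext i
          fin_cases i <;> rfl
        rw [h2, relM] at h1
        rw [h1]
        exact Iff.rfl
      have hgadj : ∀ x y : ℕ × Bool, (g y = star (g x) ↔ y = star x) := by
        intro x y
        have h1 := g.map_rel FirstOrder.Language.adj ![x, y]
        have h2 : (g ∘ ![x, y] : Fin 2 → ℕ × Bool) = ![g x, g y] := by
          funext i
          fin_cases i <;> rfl
        rw [h2, relM, relM] at h1
        exact h1
      obtain ⟨h, hh1, hh2⟩ := one_point (T.image f) (g a) (f a) (by
          intro hmem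
          obtain ⟨x, hx, hxa⟩ := Finset.mem_image.1 hmem
          rw [← hg x hx] at hxa
          have := Subtype.ext (g.injective hxa)
          rw [this] at hx
          exact ha hx) (by
          intro hmem
          obtain ⟨x, hx, hxa⟩ := Finset.mem_image.1 hmem
          have := f.injective hxa
          rw [this] at hx
          exact ha hx) (by
          intro y hy
          obtain ⟨x, hx, rfl⟩ := Finset.mem_image.1 hy
          rw [hadj a x, ← hg x hx, hgadj])
      refine ⟨h.comp g, ?_⟩
      intro x hx
      change h (g x) = f x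
      rcases Finset.mem_insert.1 hx with rfl | hx
      · exact hh2
      · rw [hg x hx]
        exact hh1 _ (Finset.mem_image_of_mem _ hx)
  have _ : Fintype S := Fintype.ofFinite S
  obtain ⟨g, hg⟩ := key Finset.univ
  refine ⟨g, ?_⟩
  ext x
  · exact congrArg Prod.fst (hg x (Finset.mem_univ _)).symm
  · exact congrArg Prod.snd (hg x (Finset.mem_univ _)).symm

/-- the edge `{n} × Bool` -/
def edge (n : ℕ) : Bool ↪[LG] (ℕ × Bool) where
  toFun b := (n, b)
  inj' := fun b c h => congrArg Prod.snd h
  map_fun' := fun {n} f => (f : Empty).elim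
  map_rel' := by
    rintro n ⟨⟩ x
    change ((_, x 1) : ℕ × Bool) = star (_, x 0) ↔ x 1 = !(x 0)
    simp [star]

/-- a vertex -/
def vert (x : ℕ × Bool) : Unit ↪[LG] (ℕ × Bool) where
  toFun _ := x
  inj' := fun b c _ => rfl
  map_fun' := fun {n} f => (f : Empty).elim
  map_rel' := by
    rintro n ⟨⟩ y
    change x = star x ↔ (⊥ : SimpleGraph Unit).Adj _ _
    simp [(star_ne x).symm]

theorem vert_eq (f : Unit ↪[LG] (ℕ × Bool)) : f = vert (f ()) := by
  ext x <;> rfl

open FirstOrder.Language in
/-- `∀ z, z ~ x0 → z = x1` -/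
def psi1 : LG.Formula (Fin 2) :=
  ((Relations.boundedFormula₂ adj (&0) (Term.var (Sum.inl 0))).imp
    ((&0 : LG.Term (Fin 2 ⊕ Fin 1)) =' (Term.var (Sum.inl 1)))).all

open FirstOrder.Language in
/-- `∀ z, x0 ~ z → z = x1` -/
def psi2 : LG.Formula (Fin 2) :=
  ((Relations.boundedFormula₂ adj (Term.var (Sum.inl 0)) (&0)).imp
    ((&0 : LG.Term (Fin 2 ⊕ Fin 1)) =' (Term.var (Sum.inl 1)))).all

open FirstOrder.Language in
theorem psi1_realize {N : Type} [LG.Structure N] (v : Fin 2 → N) :
    psi1.Realize v ↔ ∀ z, FirstOrder.Language.Structure.RelMap FirstOrder.Language.adj ![z, v 0] →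
      z = v 1 := by
  unfold psi1
  rw [Formula.Realize, BoundedFormula.realize_all]
  refine forall_congr' fun z => ?_
  rw [BoundedFormula.realize_imp, BoundedFormula.realize_rel₂, BoundedFormula.realize_bdEqual]
  exact Iff.rfl

open FirstOrder.Language in
theorem psi2_realize {N : Type} [LG.Structure N] (v : Fin 2 → N) :
    psi2.Realize v ↔ ∀ z, FirstOrder.Language.Structure.RelMap FirstOrder.Language.adj ![v 0, z] →
      z = v 1 := by
  unfold psi2
  rw [Formula.Realize, BoundedFormula.realize_all]
  refine forall_congr' fun z => ?_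
  rw [BoundedFormula.realize_imp, BoundedFormula.realize_rel₂, BoundedFormula.realize_bdEqual]
  exact Iff.rfl

open FirstOrder.Language in
/-- in an elementary extension the transposition of an edge of `ℕ × Bool` is an automorphism -/
theorem swap_aut {N : Type} [LG.Structure N] (j : (ℕ × Bool) ↪ₑ[LG] N) (x : ℕ × Bool) :
    ∃ σ : N ≃[LG] N, σ (j x) = j (star x) ∧ ∀ z, z ≠ j x → z ≠ j (star x) → σ z = z := by
  classical
  have h1 : ∀ x z, Structure.RelMap adj ![z, j x] ↔ z = j (star x) := by
    intro x z
    constructor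
    · have := (j.map_formula psi1 ![x, star x]).2 (by
        rw [psi1_realize]
        intro z hz
        rw [relM] at hz
        have hz' : x = star z := hz
        change z = star x
        rw [hz', star_star])
      rw [psi1_realize] at this
      exact this z
    · rintro rfl
      have := j.map_rel adj ![star x, x]
      have h2 : (j ∘ ![star x, x] : Fin 2 → N) = ![j (star x), j x] := by
        funext i
        fin_cases i <;> rfl
      rw [h2] at this
      rw [this, relM, star_star]
  have h2 : ∀ x z, Structure.RelMap adj ![j x, z] ↔ z = j (star x) := by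
    intro x z
    constructor
    · have := (j.map_formula psi2 ![x, star x]).2 (by
        rw [psi2_realize]
        intro z hz
        rw [relM] at hz
        exact hz)
      rw [psi2_realize] at this
      exact this z
    · rintro rfl
      have := j.map_rel adj ![x, star x]
      have h2 : (j ∘ ![x, star x] : Fin 2 → N) = ![j x, j (star x)] := by
        funext i
        fin_cases i <;> rfl
      rw [h2] at this
      rw [this, relM]
  have hne : j x ≠ j (star x) := fun h => star_ne x (j.injective h).symm
  refine ⟨mkAut (Equiv.swap (j x) (j (star x))) ?_, Equiv.swap_apply_left _ _,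
    fun z hz1 hz2 => Equiv.swap_apply_of_ne_of_ne hz1 hz2⟩
  intro y z
  have h3 : ∀ z, Structure.RelMap adj ![z, j (star x)] ↔ z = j x := by
    intro z
    rw [h1, star_star]
  have h4 : ∀ z, Structure.RelMap adj ![j (star x), z] ↔ z = j x := by
    intro z
    rw [h2, star_star]
  have sl : Equiv.swap (j x) (j (star x)) (j x) = j (star x) := Equiv.swap_apply_left _ _
  have sr : Equiv.swap (j x) (j (star x)) (j (star x)) = j x := Equiv.swap_apply_right _ _
  have sinj : ∀ a b, Equiv.swap (j x) (j (star x)) a = b ↔ a = Equiv.swap (j x) (j (star x)) b := by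
    intro a b
    constructor
    · rintro rfl
      rw [Equiv.swap_apply_self]
    · rintro rfl
      rw [Equiv.swap_apply_self]
  by_cases hy1 : y = j x
  · subst hy1
    rw [sl, h4, h2, sinj, sl]
  by_cases hy2 : y = j (star x)
  · subst hy2
    rw [sr, h2, h4, sinj, sr]
  by_cases hz1 : z = j x
  · subst hz1
    rw [sl, h3, h1, sinj, sl]
  by_cases hz2 : z = j (star x)
  · subst hz2
    rw [sr, h1, h3, sinj, sr]
  rw [Equiv.swap_apply_of_ne_of_ne hy1 hy2, Equiv.swap_apply_of_ne_of_ne hz1 hz2]

theorem arrowM : ArrowM LG (ℕ × Bool) Unit Bool := by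
  classical
  rintro χ ⟨N, _, j, m, e, φ, hφ⟩
  have hfin : {n : ℕ | ∃ b : Bool, j (n, b) ∈ Set.range e}.Finite := by
    have h1 : {n : ℕ | ∃ b : Bool, j (n, b) ∈ Set.range e} ⊆
        Prod.fst '' (j ⁻¹' (Set.range e)) := by
      rintro n ⟨b, hb⟩
      exact ⟨(n, b), hb, rfl⟩
    refine Set.Finite.subset ?_ h1
    exact ((Set.finite_range e).preimage j.injective.injOn).image _
  obtain ⟨n, hn⟩ := hfin.exists_notMem
  have hn' : ∀ b : Bool, ∀ i, e i ≠ j (n, b) := by
    intro b i h
    exact hn ⟨b, i, h⟩
  refine ⟨edge n, fun f f' => ?_⟩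
  by_cases hff : f () = f' ()
  · have : f = f' := by
      ext x
      exact hff
    rw [this]
  · obtain ⟨σ, hσ1, hσ2⟩ := swap_aut j (n, f ())
    have hf' : (n, f' ()) = star (n, f ()) := by
      change (n, f' ()) = (n, !(f ()))
      congr 1
      revert hff
      cases f () <;> cases f' () <;> simp
    have hiff : ∀ i, χ ((edge n).comp f) = i ↔ χ ((edge n).comp f') = i := by
      intro i
      rw [hφ, hφ, ← FirstOrder.Language.StrongHomClass.realize_formula σ (φ i)]
      have hfun : (σ ∘ Sum.elim e (fun a => j (((edge n).comp f) a)) : Fin m ⊕ Unit → N) =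
          Sum.elim e (fun a => j (((edge n).comp f') a)) := by
        funext a
        rcases a with i | u
        · change σ (e i) = e i
          apply hσ2
          · exact hn' _ _
          · rw [← hf']
            exact hn' _ _
        · change σ (j (n, f ())) = j (n, f' ())
          rw [hσ1, hf']
      rw [hfun]
    exact ((hiff _).1 rfl).symm

open FirstOrder.Language in
theorem not_arrowC (C : Type) [LG.Structure C] [Finite C] (h : C ↪[LG] (ℕ × Bool)) :
    ¬ ArrowC LG (ℕ × Bool) Unit Bool C := by
  classical
  intro hC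
  have hfin : ({x : ℕ × Bool | x ∈ Set.range h ∧ x.2 = true} : Set (ℕ × Bool)).Finite :=
    (Set.finite_range h).subset fun x hx => hx.1
  let T : Finset (ℕ × Bool) := hfin.toFinset
  have hT : ∀ x, x ∈ T ↔ x ∈ Set.range h ∧ x.2 = true := by
    intro x
    simp [T]
  let e : Fin T.card → ℕ × Bool := fun i => (T.equivFin.symm i).1
  have he : ∀ x, (∃ i, e i = x) ↔ x ∈ T := by
    intro x
    constructor
    · rintro ⟨i, rfl⟩
      exact (T.equivFin.symm i).2
    · intro hx
      exact ⟨T.equivFin ⟨x, hx⟩, by simp [e]⟩
  let χ : (Unit ↪[LG] (ℕ × Bool)) → Fin 2 := fun f => if f () ∈ T then 0 else 1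
  let φ0 : LG.Formula (Fin T.card ⊕ Unit) :=
    Formula.iSup (fun i : Fin T.card => Term.equal (Term.var (Sum.inl i)) (Term.var (Sum.inr ())))
  have hφ0 : ∀ f : Unit ↪[LG] (ℕ × Bool), φ0.Realize (Sum.elim e (fun a => f a)) ↔ f () ∈ T := by
    intro f
    rw [Formula.realize_iSup, ← he]
    refine exists_congr fun i => ?_
    rw [Formula.realize_equal]
    exact Iff.rfl
  have hχ : ExtDef LG χ := by
    refine ⟨ℕ × Bool, inferInstance, FirstOrder.Language.ElementaryEmbedding.refl LG _, T.card, e,
      fun i => if i = 0 then φ0 else φ0.not, ?_⟩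
    intro f i
    change (if f () ∈ T then (0 : Fin 2) else 1) = i ↔ (if i = 0 then φ0 else φ0.not).Realize
      (Sum.elim e (fun a => f a))
    fin_cases i
    · simp only [Fin.zero_eta, Fin.isValue, ↓reduceIte]
      rw [hφ0]
      by_cases h1 : f () ∈ T <;> simp [h1]
    · simp only [Fin.mk_one, Fin.isValue, one_ne_zero, ↓reduceIte]
      rw [Formula.realize_not, hφ0]
      by_cases h1 : f () ∈ T <;> simp [h1]
  obtain ⟨g, hg⟩ := hC h χ hχ
  let vB : Bool → (Unit ↪[LG] Bool) := fun b =>
    { toFun := fun _ => b
      inj' := fun _ _ _ => rfl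
      map_fun' := fun {n} f => (f : Empty).elim
      map_rel' := by
        rintro n ⟨⟩ y
        change b = !b ↔ (⊥ : SimpleGraph Unit).Adj _ _
        cases b <;> simp }
  have h1 := hg (vB true) (vB false)
  change (if h (g true) ∈ T then (0 : Fin 2) else 1) = if h (g false) ∈ T then (0 : Fin 2) else 1 at h1
  have h2 : h (g false) = star (h (g true)) := by
    have h3 := (h.comp g).map_rel adj ![true, false]
    have h4 : ((h.comp g) ∘ ![true, false] : Fin 2 → ℕ × Bool) = ![h (g true), h (g false)] := by
      funext i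
      fin_cases i <;> rfl
    rw [h4, relM] at h3
    exact h3.2 (by change false = !true; rfl)
  have h5 : h (g true) ∈ T ↔ (h (g true)).2 = true := by
    rw [hT]
    simp
  have h6 : h (g false) ∈ T ↔ (h (g false)).2 = true := by
    rw [hT]
    simp
  rw [h2] at h6 h1
  have h7 : (star (h (g true))).2 = !(h (g true)).2 := rfl
  rw [h7] at h6
  by_cases h8 : (h (g true)).2 = true
  · rw [if_pos (h5.2 h8), if_neg (fun h9 => by simpa [h8] using h6.1 h9)] at h1
    exact absurd h1 (by decide)
  · rw [if_neg (fun h9 => h8 (h5.1 h9)), if_pos (h6.2 (by simpa using h8))] at h1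
    exact absurd h1 (by decide)

/-- There are a countable relational language, a countably infinite ultrahomogeneous structure `M`
and finite structures `A`, `B` in its age such that `M →_ext (B)^A_2`, but `C →_ext (B)^A_2` fails
for every finite structure `C` in the age of `M`. -/
theorem result : ∃ (L : FirstOrder.Language.{0, 0}) (_ : L.IsRelational)
    (_ : Countable (Σ n, L.Relations n)) (M : Type) (_ : L.Structure M) (A : Type)
    (_ : L.Structure A) (B : Type) (_ : L.Structure B),
    Countable M ∧ Infinite M ∧ L.IsUltrahomogeneous M ∧ Finite A ∧ Nonempty (A ↪[L] M) ∧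
    Finite B ∧ Nonempty (B ↪[L] M) ∧ ArrowM L M A B ∧
    ∀ (C : Type) [L.Structure C], Finite C → Nonempty (C ↪[L] M) → ¬ ArrowC L M A B C := by
  refine ⟨LG, inferInstance, ?_, ℕ × Bool, inferInstance, Unit, inferInstance, Bool, inferInstance,
    inferInstance, inferInstance, ultra, inferInstance, ⟨vert (0, true)⟩, inferInstance, ⟨edge 0⟩,
    arrowM, ?_⟩
  · have : ∀ n, Countable (LG.Relations n) := fun n =>
      @Finite.to_countable _ (Finite.of_subsingleton)
    infer_instance
  · intro C _ _ ⟨h⟩
    exact not_arrowC C h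

end Pool.Agent.Results.MP_5814e0_lc.NoFiniteWitness
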